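import Pool.Agent.Helper91.FBL.Defs

/-! # Basic facts on the free Banach lattice norm -/

set_option autoImplicit false

namespace Pool.Agent.Helper91.FreeLat

open scoped ENNReal

universe u v

variable {E : Type u} [NormedAddCommGroup E] [NormedSpace ℝ E]

lemma ofReal_sum_le_fblNorm {ι : Type*} [Fintype ι] (f : StrongDual ℝ E → ℝ)
    (φ : ι → StrongDual ℝ E) (h : ∀ x : E, ‖x‖ ≤ 1 → ∑ j, |φ j x| ≤ 1) :
    ENNReal.ofReal (∑ j, |f (φ j)|) ≤ fblNorm f := by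
  classical
  let e := Fintype.equivFin ι
  have hA : Admissible (fun j => φ (e.symm j)) := by
    intro x hx
    have := h x hx
    rwa [← Equiv.sum_comp e.symm (fun j => |φ j x|)] at this
  have h1 : (∑ j, |f (φ j)|) = ∑ j, |f (φ (e.symm j))| :=
    (Equiv.sum_comp e.symm (fun j => |f (φ j)|)).symm
  rw [h1]
  unfold fblNorm
  exact le_iSup_of_le (Fintype.card ι) (le_iSup_of_le (fun j => φ (e.symm j))
    (le_iSup_of_le hA le_rfl))

lemma sum_le_of_fblNorm_le {ι : Type*} [Fintype ι] {f : StrongDual ℝ E → ℝ} {C : ℝ} (hC : 0 ≤ C)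
    (hf : fblNorm f ≤ ENNReal.ofReal C)
    (φ : ι → StrongDual ℝ E) (h : ∀ x : E, ‖x‖ ≤ 1 → ∑ j, |φ j x| ≤ 1) :
    ∑ j, |f (φ j)| ≤ C := by
  have := (ofReal_sum_le_fblNorm f φ h).trans hf
  exact (ENNReal.ofReal_le_ofReal_iff hC).1 this

lemma fblNorm_le_ofReal {f : StrongDual ℝ E → ℝ} {C : ℝ}
    (h : ∀ (n : ℕ) (φ : Fin n → StrongDual ℝ E), Admissible φ → ∑ j, |f (φ j)| ≤ C) :
    fblNorm f ≤ ENNReal.ofReal C := by
  unfold fblNorm
  refine iSup_le fun n => iSup_le fun φ => iSup_le fun hφ => ?_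
  exact ENNReal.ofReal_le_ofReal (h n φ hφ)

lemma fblNorm_mono {f g : StrongDual ℝ E → ℝ} (h : ∀ φ, |f φ| ≤ |g φ|) :
    fblNorm f ≤ fblNorm g := by
  unfold fblNorm
  refine iSup_le fun n => iSup_le fun φ => iSup_le fun hφ => ?_
  refine le_iSup_of_le n (le_iSup_of_le φ (le_iSup_of_le hφ ?_))
  exact ENNReal.ofReal_le_ofReal (Finset.sum_le_sum fun j _ => h _)

lemma fblNorm_add_le (f g : StrongDual ℝ E → ℝ) :
    fblNorm (f + g) ≤ fblNorm f + fblNorm g := by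
  conv_lhs => unfold fblNorm
  refine iSup_le fun n => iSup_le fun φ => iSup_le fun hφ => ?_
  calc ENNReal.ofReal (∑ j, |(f + g) (φ j)|)
      ≤ ENNReal.ofReal (∑ j, |f (φ j)| + ∑ j, |g (φ j)|) := by
        apply ENNReal.ofReal_le_ofReal
        rw [← Finset.sum_add_distrib]
        exact Finset.sum_le_sum fun j _ => abs_add_le _ _
    _ ≤ ENNReal.ofReal (∑ j, |f (φ j)|) + ENNReal.ofReal (∑ j, |g (φ j)|) :=
        ENNReal.ofReal_add_le
    _ ≤ fblNorm f + fblNorm g :=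
        add_le_add (ofReal_sum_le_fblNorm f φ hφ) (ofReal_sum_le_fblNorm g φ hφ)

lemma fblNorm_smul (c : ℝ) (f : StrongDual ℝ E → ℝ) :
    fblNorm (c • f) = ENNReal.ofReal |c| * fblNorm f := by
  unfold fblNorm
  rw [ENNReal.mul_iSup]
  refine iSup_congr fun n => ?_
  rw [ENNReal.mul_iSup]
  refine iSup_congr fun φ => ?_
  rw [ENNReal.mul_iSup]
  refine iSup_congr fun hφ => ?_
  rw [← ENNReal.ofReal_mul (abs_nonneg c), Finset.mul_sum]
  congr 1
  refine Finset.sum_congr rfl fun j _ => ?_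
  simp [abs_mul]

lemma fblNorm_neg (f : StrongDual ℝ E → ℝ) : fblNorm (-f) = fblNorm f := by
  have := fblNorm_smul (-1 : ℝ) f
  simpa using this

lemma fblNorm_sub_comm (f g : StrongDual ℝ E → ℝ) : fblNorm (f - g) = fblNorm (g - f) := by
  rw [← neg_sub, fblNorm_neg]

/-- Finite tuples: scaling of the admissibility condition. -/
lemma sum_le_of_bound {ι : Type*} [Fintype ι] {f : StrongDual ℝ E → ℝ} {C : ℝ} (hC : 0 ≤ C)
    (hp : PosHom f) (hf : fblNorm f ≤ ENNReal.ofReal C) {s : ℝ} (hs : 0 < s)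
    (φ : ι → StrongDual ℝ E) (h : ∀ x : E, ‖x‖ ≤ 1 → ∑ j, |φ j x| ≤ s) :
    ∑ j, |f (φ j)| ≤ s * C := by
  have h1 : ∑ j, |f (s⁻¹ • φ j)| ≤ C := by
    refine sum_le_of_fblNorm_le hC hf (fun j => s⁻¹ • φ j) ?_
    intro x hx
    have h2 := h x hx
    have h3 : ∑ j, |(s⁻¹ • φ j) x| = s⁻¹ * ∑ j, |φ j x| := by
      rw [Finset.mul_sum]
      refine Finset.sum_congr rfl fun j _ => ?_
      simp [abs_mul, abs_of_pos hs]
    rw [h3]
    calc s⁻¹ * ∑ j, |φ j x| ≤ s⁻¹ * s := by gcongr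
      _ = 1 := inv_mul_cancel₀ hs.ne'
  have h4 : ∑ j, |f (s⁻¹ • φ j)| = s⁻¹ * ∑ j, |f (φ j)| := by
    rw [Finset.mul_sum]
    refine Finset.sum_congr rfl fun j _ => ?_
    rw [hp _ _ (inv_nonneg.2 hs.le), abs_mul, abs_of_pos (inv_pos.2 hs)]
  rw [h4] at h1
  calc ∑ j, |f (φ j)| = s * (s⁻¹ * ∑ j, |f (φ j)|) := by
        rw [← mul_assoc, mul_inv_cancel₀ hs.ne', one_mul]
    _ ≤ s * C := by gcongr

/-- Lower bounds of the norm via tuples bounded by `s`. -/
lemma le_fblNorm_of_bound {ι : Type*} [Fintype ι] {f : StrongDual ℝ E → ℝ}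
    (hp : PosHom f) {s : ℝ} (hs : 0 < s)
    (φ : ι → StrongDual ℝ E) (h : ∀ x : E, ‖x‖ ≤ 1 → ∑ j, |φ j x| ≤ s) :
    ENNReal.ofReal (s⁻¹ * ∑ j, |f (φ j)|) ≤ fblNorm f := by
  have h4 : ∑ j, |f (s⁻¹ • φ j)| = s⁻¹ * ∑ j, |f (φ j)| := by
    rw [Finset.mul_sum]
    refine Finset.sum_congr rfl fun j _ => ?_
    rw [hp _ _ (inv_nonneg.2 hs.le), abs_mul, abs_of_pos (inv_pos.2 hs)]
  rw [← h4]
  refine ofReal_sum_le_fblNorm f (fun j => s⁻¹ • φ j) ?_
  intro x hx
  have h2 := h x hx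
  have h3 : ∑ j, |(s⁻¹ • φ j) x| = s⁻¹ * ∑ j, |φ j x| := by
    rw [Finset.mul_sum]
    refine Finset.sum_congr rfl fun j _ => ?_
    simp [abs_mul, abs_of_pos hs]
  rw [h3]
  calc s⁻¹ * ∑ j, |φ j x| ≤ s⁻¹ * s := by gcongr
    _ = 1 := inv_mul_cancel₀ hs.ne'

lemma fblNorm_delta_le (x : E) : fblNorm (delta x) ≤ ENNReal.ofReal ‖x‖ := by
  refine fblNorm_le_ofReal fun n φ hφ => ?_
  rcases eq_or_ne x 0 with rfl | hx
  · simp [delta]
  have hx' : 0 < ‖x‖ := norm_pos_iff.2 hx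
  have h1 := hφ (‖x‖⁻¹ • x) (by rw [norm_smul, norm_inv, norm_norm, inv_mul_cancel₀ hx'.ne'])
  have h2 : ∑ j, |φ j (‖x‖⁻¹ • x)| = ‖x‖⁻¹ * ∑ j, |φ j x| := by
    rw [Finset.mul_sum]
    refine Finset.sum_congr rfl fun j _ => ?_
    simp [abs_mul]
  rw [h2] at h1
  have : ∑ j, |φ j x| = ‖x‖ * (‖x‖⁻¹ * ∑ j, |φ j x|) := by
    rw [← mul_assoc, mul_inv_cancel₀ hx'.ne', one_mul]
  simp only [delta]
  rw [this]
  calc ‖x‖ * (‖x‖⁻¹ * ∑ j, |φ j x|) ≤ ‖x‖ * 1 := by gcongr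
    _ = ‖x‖ := mul_one _

lemma fblNorm_delta (x : E) : fblNorm (delta x) = ENNReal.ofReal ‖x‖ := by
  refine le_antisymm (fblNorm_delta_le x) ?_
  obtain ⟨φ, hφ, hφx⟩ := exists_dual_vector'' ℝ x
  have := ofReal_sum_le_fblNorm (delta x) (fun _ : Unit => φ) (by
    intro y hy
    simp only [Finset.univ_unique, Finset.sum_singleton]
    calc |φ y| ≤ ‖φ‖ * ‖y‖ := φ.le_opNorm y
      _ ≤ 1 * 1 := by gcongr
      _ = 1 := one_mul _)
  simpa [delta, hφx] using this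

section sublattice

lemma InSublattice.posHom {f : StrongDual ℝ E → ℝ} (h : InSublattice f) : PosHom f := by
  induction h with
  | eval x => intro c φ _; simp [delta]
  | add _ _ ihf ihg => intro c φ hc; simp [ihf c φ hc, ihg c φ hc, mul_add]
  | smul c _ ih => intro d φ hd; simp [ih d φ hd]; ring
  | sup _ _ ihf ihg =>
    intro c φ hc
    simp only [Pi.sup_apply, ihf c φ hc, ihg c φ hc]
    exact (mul_max_of_nonneg _ _ hc).symm

lemma fblNorm_sup_le (f g : StrongDual ℝ E → ℝ) : fblNorm (f ⊔ g) ≤ fblNorm f + fblNorm g := by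
  refine le_trans (fblNorm_mono (g := |f| + |g|) ?_) ?_
  · intro φ
    simp only [Pi.sup_apply, Pi.add_apply, Pi.abs_apply]
    rw [abs_of_nonneg (a := |f φ| + |g φ|) (by positivity)]
    rcases le_total (f φ) (g φ) with h | h
    · rw [sup_eq_right.2 h]; linarith [abs_nonneg (f φ)]
    · rw [sup_eq_left.2 h]; linarith [abs_nonneg (g φ)]
  · refine (fblNorm_add_le _ _).trans ?_
    gcongr
    · exact fblNorm_mono fun φ => by simp
    · exact fblNorm_mono fun φ => by simp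

lemma InSublattice.lt_top {f : StrongDual ℝ E → ℝ} (h : InSublattice f) : fblNorm f < ∞ := by
  induction h with
  | eval x => exact (fblNorm_delta_le x).trans_lt ENNReal.ofReal_lt_top
  | add _ _ ihf ihg => exact (fblNorm_add_le _ _).trans_lt (ENNReal.add_lt_top.2 ⟨ihf, ihg⟩)
  | smul c _ ih => rw [fblNorm_smul]; exact ENNReal.mul_lt_top ENNReal.ofReal_lt_top ih
  | sup _ _ ihf ihg => exact (fblNorm_sup_le _ _).trans_lt (ENNReal.add_lt_top.2 ⟨ihf, ihg⟩)

lemma InSublattice.mem_FBL {f : StrongDual ℝ E → ℝ} (h : InSublattice f) : f ∈ FBL E := by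
  refine ⟨h.posHom, h.lt_top, fun ε hε => ⟨f, h, ?_⟩⟩
  have : fblNorm (f - f) = 0 := by
    rw [sub_self]
    have := fblNorm_smul (0 : ℝ) f
    simpa using this
  rwa [this]

lemma InSublattice.lipschitz {f : StrongDual ℝ E → ℝ} (h : InSublattice f) :
    ∃ C : ℝ, 0 ≤ C ∧ ∀ φ ψ, |f φ - f ψ| ≤ C * ‖φ - ψ‖ := by
  induction h with
  | eval x =>
    refine ⟨‖x‖, norm_nonneg _, fun φ ψ => ?_⟩
    have := (φ - ψ).le_opNorm x
    simpa [delta, mul_comm] using this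
  | add _ _ ihf ihg =>
    rename_i f g _ _
    obtain ⟨C, hC, h1⟩ := ihf
    obtain ⟨D, hD, h2⟩ := ihg
    refine ⟨C + D, by positivity, fun φ ψ => ?_⟩
    have e : (f + g) φ - (f + g) ψ = (f φ - f ψ) + (g φ - g ψ) := by
      simp only [Pi.add_apply]; ring
    rw [e, add_mul]
    exact (abs_add_le _ _).trans (add_le_add (h1 φ ψ) (h2 φ ψ))
  | smul c _ ih =>
    rename_i f _
    obtain ⟨C, hC, h1⟩ := ih
    refine ⟨|c| * C, by positivity, fun φ ψ => ?_⟩
    have e : (c • f) φ - (c • f) ψ = c * (f φ - f ψ) := by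
      simp only [Pi.smul_apply, smul_eq_mul]; ring
    rw [e, abs_mul, mul_assoc]
    exact mul_le_mul_of_nonneg_left (h1 φ ψ) (abs_nonneg c)
  | sup _ _ ihf ihg =>
    rename_i f g _ _
    obtain ⟨C, hC, h1⟩ := ihf
    obtain ⟨D, hD, h2⟩ := ihg
    refine ⟨C + D, by positivity, fun φ ψ => ?_⟩
    have h3 : |(f ⊔ g) φ - (f ⊔ g) ψ| ≤ max |f φ - f ψ| |g φ - g ψ| :=
      abs_max_sub_max_le_max _ _ _ _
    refine h3.trans (max_le ?_ ?_)
    · rw [add_mul]; linarith [h1 φ ψ, mul_nonneg hD (norm_nonneg (φ - ψ))]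
    · rw [add_mul]; linarith [h2 φ ψ, mul_nonneg hC (norm_nonneg (φ - ψ))]

lemma InSublattice.local {f : StrongDual ℝ E → ℝ} (h : InSublattice f) :
    ∃ F : Submodule ℝ E, FiniteDimensional ℝ F ∧
      ∀ φ ψ : StrongDual ℝ E, (∀ u ∈ F, φ u = ψ u) → f φ = f ψ := by
  induction h with
  | eval x =>
    refine ⟨Submodule.span ℝ {x}, inferInstance, fun φ ψ h => h x (Submodule.mem_span_singleton_self x)⟩
  | add _ _ ihf ihg =>
    obtain ⟨F, hF, h1⟩ := ihf
    obtain ⟨G, hG, h2⟩ := ihg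
    refine ⟨F ⊔ G, inferInstance, fun φ ψ h => ?_⟩
    simp only [Pi.add_apply]
    rw [h1 φ ψ fun u hu => h u (Submodule.mem_sup_left hu),
      h2 φ ψ fun u hu => h u (Submodule.mem_sup_right hu)]
  | smul c _ ih =>
    obtain ⟨F, hF, h1⟩ := ih
    refine ⟨F, hF, fun φ ψ h => ?_⟩
    simp only [Pi.smul_apply]
    rw [h1 φ ψ h]
  | sup _ _ ihf ihg =>
    obtain ⟨F, hF, h1⟩ := ihf
    obtain ⟨G, hG, h2⟩ := ihg
    refine ⟨F ⊔ G, inferInstance, fun φ ψ h => ?_⟩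
    simp only [Pi.sup_apply]
    rw [h1 φ ψ fun u hu => h u (Submodule.mem_sup_left hu),
      h2 φ ψ fun u hu => h u (Submodule.mem_sup_right hu)]

lemma InSublattice.neg {f : StrongDual ℝ E → ℝ} (h : InSublattice f) : InSublattice (-f) := by
  have := h.smul (-1)
  simpa using this

lemma InSublattice.sub {f g : StrongDual ℝ E → ℝ} (hf : InSublattice f) (hg : InSublattice g) :
    InSublattice (f - g) := by
  rw [sub_eq_add_neg]; exact hf.add hg.neg

lemma InSublattice.inf {f g : StrongDual ℝ E → ℝ} (hf : InSublattice f) (hg : InSublattice g) :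
    InSublattice (f ⊓ g) := by
  have h := (hf.neg.sup hg.neg).neg
  have e : -(-f ⊔ -g) = f ⊓ g := by
    funext φ
    simp only [Pi.neg_apply, Pi.sup_apply, Pi.inf_apply]
    rw [neg_sup, neg_neg, neg_neg]
  rwa [e] at h

lemma InSublattice.zero : InSublattice (0 : StrongDual ℝ E → ℝ) := by
  have := (InSublattice.eval (0 : E))
  have e : delta (0 : E) = 0 := by funext φ; simp [delta]
  rwa [e] at this

lemma InSublattice.abs {f : StrongDual ℝ E → ℝ} (hf : InSublattice f) :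
    InSublattice (|f|) := hf.sup hf.neg

lemma InSublattice.sum {ι : Type*} (s : Finset ι) (f : ι → StrongDual ℝ E → ℝ)
    (h : ∀ i ∈ s, InSublattice (f i)) : InSublattice (∑ i ∈ s, f i) := by
  classical
  induction s using Finset.induction_on with
  | empty => simpa using InSublattice.zero
  | insert a s ha ih =>
    rw [Finset.sum_insert ha]
    exact (h a (Finset.mem_insert_self a s)).add
      (ih fun i hi => h i (Finset.mem_insert_of_mem hi))

end sublattice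

end Pool.Agent.Helper91.FreeLat
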