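import Mathlib

/-!
# Free Banach lattices, L₁-preduals, the Daugavet property, octahedral norms

Definitions for problem MP_93c18e_an.
-/

set_option autoImplicit false

namespace Pool.Agent.Helper91.FreeLat

open scoped ENNReal

universe u v

/-- The real normed space `E` is an `L₁`-predual, witnessed in the universe `v`: its dual is
isometrically isomorphic to `L₁(μ)` for some measure `μ`. -/
def IsL1Predual (E : Type u) [NormedAddCommGroup E] [NormedSpace ℝ E] : Prop :=
  ∃ (Ω : Type v) (_ : MeasurableSpace Ω) (μ : MeasureTheory.Measure Ω),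
    Nonempty (StrongDual ℝ E ≃ₗᵢ[ℝ] MeasureTheory.Lp ℝ 1 μ)

/-- The Daugavet property: `‖I + T‖ = 1 + ‖T‖` for every rank-one bounded operator `T`. -/
def Daugavet (E : Type u) [NormedAddCommGroup E] [NormedSpace ℝ E] : Prop :=
  ∀ T : E →L[ℝ] E, Module.finrank ℝ (LinearMap.range (T : E →ₗ[ℝ] E)) = 1 →
    ‖ContinuousLinearMap.id ℝ E + T‖ = 1 + ‖T‖

/-- The norm of the normed space `E` is octahedral. -/
def Octahedral (E : Type u) [NormedAddCommGroup E] [NormedSpace ℝ E] : Prop :=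
  ∀ (n : ℕ) (x : Fin n → E), (∀ i, ‖x i‖ = 1) → ∀ ε : ℝ, 0 < ε →
    ∃ y : E, ‖y‖ = 1 ∧ ∀ i, 2 - ε < ‖x i + y‖

variable {E : Type u} [NormedAddCommGroup E] [NormedSpace ℝ E]

/-- A function on the dual `E*` is positively homogeneous. -/
def PosHom (f : StrongDual ℝ E → ℝ) : Prop :=
  ∀ (c : ℝ) (φ : StrongDual ℝ E), 0 ≤ c → f (c • φ) = c * f φ

/-- The tuple `x₁*, …, xₙ*` in `E*` satisfies `∑ |xᵢ*(x)| ≤ 1` for all `x` in the unit ball. -/
def Admissible {n : ℕ} (φ : Fin n → StrongDual ℝ E) : Prop :=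
  ∀ x : E, ‖x‖ ≤ 1 → ∑ j, |φ j x| ≤ 1

/-- The norm of the free Banach lattice: the supremum of `∑ |f(xᵢ*)|` over all tuples with
`sup_{x ∈ B_E} ∑ |xᵢ*(x)| ≤ 1`. It is `∞` when the supremum is infinite. -/
noncomputable def fblNorm (f : StrongDual ℝ E → ℝ) : ℝ≥0∞ :=
  ⨆ (n : ℕ) (φ : Fin n → StrongDual ℝ E) (_ : Admissible φ), ENNReal.ofReal (∑ j, |f (φ j)|)

/-- The evaluation function `δ_x` on `E*`. -/
def delta (x : E) : StrongDual ℝ E → ℝ := fun φ => φ x

/-- The vector sublattice (pointwise operations) generated by the functions `δ_x`. -/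
inductive InSublattice : (StrongDual ℝ E → ℝ) → Prop
  | eval (x : E) : InSublattice (delta x)
  | add {f g : StrongDual ℝ E → ℝ} : InSublattice f → InSublattice g → InSublattice (f + g)
  | smul (c : ℝ) {f : StrongDual ℝ E → ℝ} : InSublattice f → InSublattice (c • f)
  | sup {f g : StrongDual ℝ E → ℝ} : InSublattice f → InSublattice g → InSublattice (f ⊔ g)

variable (E) in
/-- The free Banach lattice `FBL[E]`: the closure, in the lattice of positively homogeneous
functions of finite norm, of the vector sublattice generated by the `δ_x`. -/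
def FBL : Set (StrongDual ℝ E → ℝ) :=
  {f | PosHom f ∧ fblNorm f < ∞ ∧ ∀ ε : ℝ≥0∞, 0 < ε → ∃ g, InSublattice g ∧ fblNorm (f - g) < ε}

variable (E) in
/-- The norm of `FBL[E]` is octahedral. -/
def FBLOctahedral : Prop :=
  ∀ (n : ℕ) (f : Fin n → StrongDual ℝ E → ℝ), (∀ i, f i ∈ FBL E ∧ fblNorm (f i) = 1) →
    ∀ ε : ℝ, 0 < ε →
      ∃ y ∈ FBL E, fblNorm y = 1 ∧ ∀ i, ENNReal.ofReal (2 - ε) < fblNorm (f i + y)

end Pool.Agent.Helper91.FreeLat
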