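import Pool.Agent.Helper91.FBL.Basic

/-! # Octahedral norms: Hahn–Banach, nets, the Daugavet property -/

set_option autoImplicit false

namespace Pool.Agent.Helper91.FreeLat

open scoped ENNReal

universe u v

variable {E : Type u} [NormedAddCommGroup E] [NormedSpace ℝ E]

/-- Helly-type extension lemma. -/
lemma exists_functional {V : Type*} [AddCommGroup V] [Module ℝ V] (J : V →ₗ[ℝ] E)
    (c : V →ₗ[ℝ] ℝ) {M : ℝ} (hM : 0 ≤ M) (h : ∀ v, |c v| ≤ M * ‖J v‖) :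
    ∃ ψ : StrongDual ℝ E, ‖ψ‖ ≤ M ∧ ∀ v, ψ (J v) = c v := by
  obtain ⟨s, hs⟩ := J.rangeRestrict.exists_rightInverse_of_surjective J.range_rangeRestrict
  have hs' : ∀ r : LinearMap.range J, J (s r) = r := fun r => by
    have := congrArg (fun f => (f r : LinearMap.range J)) hs
    have h2 := congrArg Subtype.val this
    simpa using h2
  let c' : LinearMap.range J →ₗ[ℝ] ℝ := c ∘ₗ s
  have hc' : ∀ r, ‖c' r‖ ≤ M * ‖r‖ := fun r => by
    have := h (s r)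
    rw [hs'] at this
    simpa [c'] using this
  let C := c'.mkContinuous M hc'
  obtain ⟨ψ, hψ, hn⟩ := exists_extension_norm_eq (LinearMap.range J) C
  refine ⟨ψ, ?_, fun v => ?_⟩
  · rw [hn]; exact c'.mkContinuous_norm_le hM hc'
  · have h1 := hψ ⟨J v, LinearMap.mem_range_self J v⟩
    have h2 : C ⟨J v, LinearMap.mem_range_self J v⟩ = c (s ⟨J v, LinearMap.mem_range_self J v⟩) := rfl
    have h3 : c (s ⟨J v, LinearMap.mem_range_self J v⟩ - v) = 0 := by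
      have h4 := h (s ⟨J v, LinearMap.mem_range_self J v⟩ - v)
      rw [map_sub J, hs', sub_self, norm_zero, mul_zero] at h4
      exact abs_eq_zero.1 (le_antisymm h4 (abs_nonneg _))
    rw [map_sub, sub_eq_zero] at h3
    simpa [h2, h3] using h1

lemma octa_scaling {u' y : E} {ε : ℝ} (hu : ‖u'‖ = 1) (hy : ‖y‖ = 1) (h : 2 - ε ≤ ‖u' + y‖)
    {α β : ℝ} (hα : 0 ≤ α) (hβ : 0 ≤ β) (hε : 0 ≤ ε) :
    (1 - ε) * (α + β) ≤ ‖α • u' + β • y‖ := by
  rcases le_total β α with hab | hab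
  · have h1 : α • u' + β • y = α • (u' + y) - (α - β) • y := by
      rw [smul_add, sub_smul]; abel
    have h2 : ‖α • (u' + y)‖ - ‖(α - β) • y‖ ≤ ‖α • u' + β • y‖ := by
      rw [h1]; exact norm_sub_norm_le _ _
    rw [norm_smul, norm_smul, hy, Real.norm_of_nonneg hα, Real.norm_of_nonneg (by linarith)] at h2
    nlinarith [mul_le_mul_of_nonneg_left h hα, mul_nonneg hε hβ]
  · have h1 : α • u' + β • y = β • (u' + y) - (β - α) • u' := by
      rw [smul_add, sub_smul]; abel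
    have h2 : ‖β • (u' + y)‖ - ‖(β - α) • u'‖ ≤ ‖α • u' + β • y‖ := by
      rw [h1]; exact norm_sub_norm_le _ _
    rw [norm_smul, norm_smul, hu, Real.norm_of_nonneg hβ, Real.norm_of_nonneg (by linarith)] at h2
    nlinarith [mul_le_mul_of_nonneg_left h hβ, mul_nonneg hε hα]

lemma Octahedral.finset (hO : Octahedral E) (t : Finset E) (ht : ∀ x ∈ t, ‖x‖ = 1) {ε : ℝ}
    (hε : 0 < ε) : ∃ y : E, ‖y‖ = 1 ∧ ∀ x ∈ t, 2 - ε < ‖x + y‖ := by
  classical
  obtain ⟨y, hy, h⟩ := hO t.card (fun i => (t.equivFin.symm i : E))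
    (fun i => ht _ (t.equivFin.symm i).2) ε hε
  refine ⟨y, hy, fun x hx => ?_⟩
  have := h (t.equivFin ⟨x, hx⟩)
  simpa using this

/-- Octahedral norms: the finite-dimensional form. -/
lemma Octahedral.exists_independent (hO : Octahedral E) (F : Submodule ℝ E)
    [FiniteDimensional ℝ F] {δ : ℝ} (hδ : 0 < δ) :
    ∃ y : E, ‖y‖ = 1 ∧ ∀ u ∈ F, ∀ l : ℝ, (1 - δ) * (‖u‖ + |l|) ≤ ‖u + l • y‖ := by
  classical
  have hc : IsCompact (Metric.sphere (0 : F) 1) := isCompact_sphere 0 1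
  obtain ⟨t, htS, htf, htc⟩ := hc.finite_cover_balls (e := δ / 2) (by positivity)
  obtain ⟨y, hy, hyt⟩ := hO.finset (htf.toFinset.image (Subtype.val)) (by
    intro x hx
    simp only [Finset.mem_image, Set.Finite.mem_toFinset] at hx
    obtain ⟨a, ha, rfl⟩ := hx
    have := htS ha
    simpa using this) (ε := δ / 2) (by positivity)
  have key : ∀ u ∈ F, ‖u‖ = 1 → 2 - δ ≤ ‖u + y‖ := by
    intro u hu hun
    have hu' : (⟨u, hu⟩ : F) ∈ Metric.sphere (0 : F) 1 := by simpa using hun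
    have := htc hu'
    simp only [Set.mem_iUnion, Metric.mem_ball] at this
    obtain ⟨a, ha, hd⟩ := this
    have h1 := hyt a.1 (by
      simp only [Finset.mem_image, Set.Finite.mem_toFinset]
      exact ⟨a, ha, rfl⟩)
    have h2 : ‖u - a.1‖ < δ / 2 := by
      have : dist (⟨u, hu⟩ : F) a = ‖u - a.1‖ := by
        rw [dist_eq_norm]; rfl
      rwa [this] at hd
    have h3 : ‖(a : E) + y‖ ≤ ‖u + y‖ + ‖u - a.1‖ := by
      have : (a : E) + y = (u + y) - (u - a.1) := by abel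
      rw [this]; exact norm_sub_le _ _
    linarith
  have key2 : ∀ u ∈ F, ∀ l : ℝ, 0 ≤ l → (1 - δ) * (‖u‖ + l) ≤ ‖u + l • y‖ := by
    intro u hu l hl
    rcases eq_or_ne u 0 with rfl | hu0
    · rw [norm_zero, zero_add, zero_add, norm_smul, hy, mul_one, Real.norm_of_nonneg hl]
      nlinarith
    · have hpos : 0 < ‖u‖ := norm_pos_iff.2 hu0
      have h1 : ‖(‖u‖⁻¹ • u)‖ = 1 := by
        rw [norm_smul, norm_inv, norm_norm, inv_mul_cancel₀ hpos.ne']
      have h2 := octa_scaling h1 hy (key _ (F.smul_mem _ hu) h1) hpos.le hl hδ.le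
      rwa [smul_smul, mul_inv_cancel₀ hpos.ne', one_smul] at h2
  refine ⟨y, hy, fun u hu l => ?_⟩
  rcases le_total 0 l with hl | hl
  · rw [abs_of_nonneg hl]; exact key2 u hu l hl
  · have := key2 (-u) (F.neg_mem hu) (-l) (by linarith)
    rw [norm_neg, neg_smul, ← neg_add, norm_neg] at this
    rwa [abs_of_nonpos hl]

/-- One slice refinement. -/
lemma daugavet_slice (hD : Daugavet E) (φ : StrongDual ℝ E) {c : ℝ} (hc0 : 0 ≤ c)
    (hc : c < ‖φ‖)
    (x : E) (hx : ‖x‖ = 1) {ε : ℝ} (hε : 0 < ε) :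
    ∃ (ψ : StrongDual ℝ E) (d : ℝ), 0 ≤ d ∧ d < ‖ψ‖ ∧
      ∀ y : E, ‖y‖ ≤ 1 → d < ψ y → c < φ y ∧ 2 - ε < ‖x + y‖ := by
  -- normalise
  have hφ : 0 < ‖φ‖ := hc0.trans_lt hc
  set η : ℝ := min (ε / 3) ((1 - c / ‖φ‖) / 3) with hη
  have hcφ : c / ‖φ‖ < 1 := (div_lt_one hφ).2 hc
  have hη0 : 0 < η := lt_min (by positivity) (by linarith [hcφ])
  have hη1 : η ≤ ε / 3 := min_le_left _ _
  have hη2 : η ≤ (1 - c / ‖φ‖) / 3 := min_le_right _ _
  have hη3 : η ≤ 1 / 3 := by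
    have : 0 ≤ c / ‖φ‖ := by positivity
    linarith
  set φ' : StrongDual ℝ E := ‖φ‖⁻¹ • φ with hφ'
  have hφ'n : ‖φ'‖ = 1 := by
    rw [hφ', norm_smul, norm_inv, norm_norm, inv_mul_cancel₀ hφ.ne']
  set T : E →L[ℝ] E := φ'.smulRight x with hT
  have hTn : ‖T‖ = 1 := by rw [hT, ContinuousLinearMap.norm_smulRight_apply, hφ'n, hx, one_mul]
  have hx0 : x ≠ 0 := by rintro rfl; simp at hx
  have hφ0 : φ' ≠ 0 := by intro h; rw [h] at hφ'n; simp at hφ'n
  have hrank : Module.finrank ℝ (LinearMap.range (T : E →ₗ[ℝ] E)) = 1 := by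
    have : LinearMap.range (T : E →ₗ[ℝ] E) = Submodule.span ℝ {x} := by
      apply le_antisymm
      · rintro _ ⟨y, rfl⟩
        exact Submodule.mem_span_singleton.2 ⟨φ' y, rfl⟩
      · rw [Submodule.span_singleton_le_iff_mem]
        obtain ⟨y, hy⟩ : ∃ y, φ' y ≠ 0 := by
          by_contra h
          push Not at h
          exact hφ0 (ContinuousLinearMap.ext h)
        refine ⟨(φ' y)⁻¹ • y, ?_⟩
        simp [hT, hy]
    rw [this]
    exact finrank_span_singleton hx0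
  have hnorm := hD T hrank
  rw [hTn] at hnorm
  obtain ⟨e, he1, he2⟩ : ∃ e : E, ‖e‖ ≤ 1 ∧ 2 - η < ‖e + φ' e • x‖ := by
    by_contra h
    push Not at h
    have hle : ‖ContinuousLinearMap.id ℝ E + T‖ ≤ 2 - η := by
      refine ContinuousLinearMap.opNorm_le_of_unit_norm (by linarith) ?_
      intro y hy
      exact h y hy.le
    linarith
  obtain ⟨ψ₀, hψ₀, hψe⟩ := exists_dual_vector'' ℝ (e + φ' e • x)
  have hψe' : ψ₀ e + φ' e * ψ₀ x = ‖e + φ' e • x‖ := by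
    have := hψe
    simpa using this
  have b1 : |ψ₀ e| ≤ 1 := by
    calc |ψ₀ e| ≤ ‖ψ₀‖ * ‖e‖ := ψ₀.le_opNorm e
      _ ≤ 1 * 1 := by gcongr
      _ = 1 := one_mul _
  have b2 : |ψ₀ x| ≤ 1 := by
    calc |ψ₀ x| ≤ ‖ψ₀‖ * ‖x‖ := ψ₀.le_opNorm x
      _ ≤ 1 * 1 := by gcongr; exact hx.le
      _ = 1 := one_mul _
  have b3 : |φ' e| ≤ 1 := by
    calc |φ' e| ≤ ‖φ'‖ * ‖e‖ := φ'.le_opNorm e
      _ ≤ 1 * 1 := by gcongr; exact hφ'n.le
      _ = 1 := one_mul _
  -- signs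
  obtain ⟨ψ, e', hψn, he'n, h1, h2, h3⟩ : ∃ (ψ : StrongDual ℝ E) (e' : E), ‖ψ‖ ≤ 1 ∧ ‖e'‖ ≤ 1 ∧
      1 - η < ψ e' ∧ 1 - η < φ' e' ∧ 1 - η < ψ x := by
    have hprod : 1 - η < φ' e * ψ₀ x := by
      have := (abs_le.1 b1).2
      linarith
    have he0 : 1 - η < ψ₀ e := by
      have : φ' e * ψ₀ x ≤ 1 := by
        calc φ' e * ψ₀ x ≤ |φ' e * ψ₀ x| := le_abs_self _
          _ = |φ' e| * |ψ₀ x| := abs_mul _ _
          _ ≤ 1 * 1 := by gcongr
          _ = 1 := one_mul _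
      linarith
    rcases lt_or_ge 0 (ψ₀ x) with hpos | hneg
    · refine ⟨ψ₀, e, hψ₀, he1, he0, ?_, ?_⟩
      · have := (abs_le.1 b2).2
        have h4 : 0 < φ' e := by
          by_contra h
          push Not at h
          nlinarith
        nlinarith
      · have := (abs_le.1 b3).2
        nlinarith
    · refine ⟨-ψ₀, -e, by simpa using hψ₀, by simpa using he1, by simpa using he0, ?_, ?_⟩
      · have := (abs_le.1 b2).1
        have h4 : φ' e < 0 := by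
          by_contra h
          push Not at h
          nlinarith
        simp only [map_neg]
        nlinarith
      · have := (abs_le.1 b3).1
        simp only [neg_apply]
        nlinarith
  refine ⟨φ' + ψ, 2 - 2 * η, by linarith, ?_, ?_⟩
  · calc 2 - 2 * η < φ' e' + ψ e' := by linarith
      _ = (φ' + ψ) e' := rfl
      _ ≤ |(φ' + ψ) e'| := le_abs_self _
      _ ≤ ‖φ' + ψ‖ * ‖e'‖ := (φ' + ψ).le_opNorm e'
      _ ≤ ‖φ' + ψ‖ * 1 := by gcongr
      _ = ‖φ' + ψ‖ := mul_one _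
  · intro y hy hd
    have hd' : 2 - 2 * η < φ' y + ψ y := hd
    have c1 : ψ y ≤ 1 := by
      calc ψ y ≤ |ψ y| := le_abs_self _
        _ ≤ ‖ψ‖ * ‖y‖ := ψ.le_opNorm y
        _ ≤ 1 * 1 := by gcongr
        _ = 1 := one_mul _
    have c2 : φ' y ≤ 1 := by
      calc φ' y ≤ |φ' y| := le_abs_self _
        _ ≤ ‖φ'‖ * ‖y‖ := φ'.le_opNorm y
        _ ≤ 1 * 1 := by gcongr; exact hφ'n.le
        _ = 1 := one_mul _
    constructor
    · have h5 : c / ‖φ‖ < φ' y := by linarith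
      have h6 : φ' y = ‖φ‖⁻¹ * φ y := by simp [hφ']
      rw [h6, div_eq_inv_mul] at h5
      exact lt_of_mul_lt_mul_left h5 (by positivity)
    · have h7 : ψ (x + y) ≤ ‖x + y‖ := by
        calc ψ (x + y) ≤ |ψ (x + y)| := le_abs_self _
          _ ≤ ‖ψ‖ * ‖x + y‖ := ψ.le_opNorm _
          _ ≤ 1 * ‖x + y‖ := by gcongr
          _ = ‖x + y‖ := one_mul _
      rw [map_add] at h7
      linarith

/-- The Daugavet property implies that the norm is octahedral. -/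
theorem Daugavet.octahedral [Nontrivial E] (hD : Daugavet E) : Octahedral E := by
  intro n x hx ε hε
  have key : ∀ m : ℕ, m ≤ n → ∃ (ψ : StrongDual ℝ E) (d : ℝ), 0 ≤ d ∧ d < ‖ψ‖ ∧
      ∀ y : E, ‖y‖ ≤ 1 → d < ψ y → ∀ i : Fin n, i.val < m → 2 - ε / 2 < ‖x i + y‖ := by
    intro m
    induction m with
    | zero =>
      intro _
      obtain ⟨z, hz⟩ := exists_ne (0 : E)
      obtain ⟨φ, hφ, -⟩ := exists_dual_vector ℝ z (norm_ne_zero_iff.2 hz)
      exact ⟨φ, 0, le_rfl, by rw [hφ]; exact one_pos, fun y _ _ i hi => absurd hi (Nat.not_lt_zero _)⟩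
    | succ m ih =>
      intro hm
      obtain ⟨ψ, d, hd0, hd, h⟩ := ih (by omega)
      obtain ⟨ψ', d', hd0', hd', h'⟩ := daugavet_slice hD ψ hd0 hd (x ⟨m, by omega⟩) (hx _)
        (ε := ε / 2) (by positivity)
      refine ⟨ψ', d', hd0', hd', fun y hy hdy i hi => ?_⟩
      obtain ⟨k1, k2⟩ := h' y hy hdy
      rcases Nat.lt_succ_iff_lt_or_eq.1 hi with hi | hi
      · exact h y hy k1 i hi
      · have : i = ⟨m, by omega⟩ := Fin.ext hi
        rw [this]; exact k2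
  obtain ⟨ψ, d, hd0, hd, h⟩ := key n le_rfl
  obtain ⟨y, hy1, hy2⟩ : ∃ y : E, ‖y‖ ≤ 1 ∧ d < ψ y := by
    by_contra hcon
    push Not at hcon
    have : ‖ψ‖ ≤ d := by
      refine ContinuousLinearMap.opNorm_le_of_unit_norm hd0 ?_
      intro y hy
      rw [Real.norm_eq_abs, abs_le]
      refine ⟨?_, hcon y hy.le⟩
      have := hcon (-y) (by simpa using hy.le)
      rw [map_neg] at this
      linarith
    linarith
  have hy0 : y ≠ 0 := by rintro rfl; simp at hy2; linarith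
  have hpos : 0 < ‖y‖ := norm_pos_iff.2 hy0
  refine ⟨‖y‖⁻¹ • y, by rw [norm_smul, norm_inv, norm_norm, inv_mul_cancel₀ hpos.ne'], fun i => ?_⟩
  have h1 := h y hy1 hy2 i i.2
  have h2 : ‖x i + y‖ ≤ 1 + ‖y‖ := (norm_add_le _ _).trans (by rw [hx i])
  have h3 : ‖x i + y‖ ≤ ‖x i + ‖y‖⁻¹ • y‖ + (1 - ‖y‖) := by
    have e1 : x i + y = (x i + ‖y‖⁻¹ • y) - (1 - ‖y‖) • (‖y‖⁻¹ • y) := by
      rw [sub_smul, one_smul, smul_smul, mul_inv_cancel₀ hpos.ne', one_smul]; abel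
    calc ‖x i + y‖ = ‖(x i + ‖y‖⁻¹ • y) - (1 - ‖y‖) • (‖y‖⁻¹ • y)‖ := by rw [← e1]
      _ ≤ ‖x i + ‖y‖⁻¹ • y‖ + ‖(1 - ‖y‖) • (‖y‖⁻¹ • y)‖ := norm_sub_le _ _
      _ = ‖x i + ‖y‖⁻¹ • y‖ + (1 - ‖y‖) := by
        rw [norm_smul, norm_smul, norm_inv, norm_norm, inv_mul_cancel₀ hpos.ne', mul_one,
          Real.norm_of_nonneg (by linarith)]
  linarith

end Pool.Agent.Helper91.FreeLat
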