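import Pool.Agent.Helper91.FBL.Transfer

/-! # `FBL[E]` is octahedral for every `L₁`-predual `E` with octahedral norm -/

set_option autoImplicit false

namespace Pool.Agent.Helper91.FreeLat

open scoped ENNReal

universe u v

variable {E : Type u} [NormedAddCommGroup E] [NormedSpace ℝ E]

lemma toReal_add_le {f g : StrongDual ℝ E → ℝ} (hf : fblNorm f < ∞) (hg : fblNorm g < ∞) :
    (fblNorm (f + g)).toReal ≤ (fblNorm f).toReal + (fblNorm g).toReal := by
  rw [← ENNReal.toReal_add hf.ne hg.ne]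
  exact ENNReal.toReal_mono (ENNReal.add_lt_top.2 ⟨hf, hg⟩).ne (fblNorm_add_le f g)

lemma toReal_le_add_sub {f g : StrongDual ℝ E → ℝ} (hf : fblNorm f < ∞)
    (hd : fblNorm (g - f) < ∞) :
    (fblNorm g).toReal ≤ (fblNorm f).toReal + (fblNorm (g - f)).toReal := by
  have := toReal_add_le hf hd
  rwa [add_sub_cancel] at this

/-- The bump function. -/
noncomputable def bump (x z : E) (t K : ℝ) : StrongDual ℝ E → ℝ :=
  (|delta x| - K • |delta z - t • delta x|) ⊔ 0

/-- The truncated multiple. -/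
def clampTo (h f : StrongDual ℝ E → ℝ) : StrongDual ℝ E → ℝ := (-h) ⊔ (h ⊓ f)

lemma bump_apply (x z : E) (t K : ℝ) (φ : StrongDual ℝ E) :
    bump x z t K φ = max (|φ x| - K * |φ z - t * φ x|) 0 := rfl

lemma clampTo_apply (h f : StrongDual ℝ E → ℝ) (φ : StrongDual ℝ E) :
    clampTo h f φ = max (-h φ) (min (h φ) (f φ)) := rfl

lemma inSublattice_bump (x z : E) (t K : ℝ) : InSublattice (bump x z t K) := by
  unfold bump
  refine InSublattice.sup (InSublattice.sub (InSublattice.eval x).abs (InSublattice.smul K ?_))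
    InSublattice.zero
  exact ((InSublattice.eval z).sub ((InSublattice.eval x).smul t)).abs

lemma inSublattice_clampTo {h f : StrongDual ℝ E → ℝ} (hh : InSublattice h)
    (hf : InSublattice f) : InSublattice (clampTo h f) := hh.neg.sup (hh.inf hf)

lemma abs_clampTo_le {h f : StrongDual ℝ E → ℝ} {φ : StrongDual ℝ E} (hh : 0 ≤ h φ) :
    |clampTo h f φ| ≤ h φ := by
  rw [clampTo_apply, abs_le]
  refine ⟨le_max_left _ _, max_le (by linarith) (min_le_left _ _)⟩

lemma bump_nonneg (x z : E) (t K : ℝ) (φ : StrongDual ℝ E) : 0 ≤ bump x z t K φ :=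
  le_max_right _ _

lemma bump_le (x z : E) (t : ℝ) {K : ℝ} (hK : 0 ≤ K) (φ : StrongDual ℝ E) :
    bump x z t K φ ≤ |φ x| := by
  rw [bump_apply]
  refine max_le ?_ (abs_nonneg _)
  have : 0 ≤ K * |φ z - t * φ x| := by positivity
  linarith

lemma bump_disjoint (x z : E) {s t K : ℝ} (hK : 0 ≤ K) (hst : 2 ≤ K * |s - t|)
    (φ : StrongDual ℝ E) (hs : 0 < bump x z s K φ) : bump x z t K φ = 0 := by
  by_contra hne
  have ht : 0 < bump x z t K φ := lt_of_le_of_ne (bump_nonneg x z t K φ) (Ne.symm hne)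
  rw [bump_apply] at hs ht
  have h1 : 0 < |φ x| - K * |φ z - s * φ x| := by
    by_contra h
    push Not at h
    rw [max_eq_right h] at hs
    exact lt_irrefl _ hs
  have h2 : 0 < |φ x| - K * |φ z - t * φ x| := by
    by_contra h
    push Not at h
    rw [max_eq_right h] at ht
    exact lt_irrefl _ ht
  have h3 : |s - t| * |φ x| ≤ |φ z - s * φ x| + |φ z - t * φ x| := by
    rw [← abs_mul]
    have : (s - t) * φ x = (φ z - t * φ x) - (φ z - s * φ x) := by ring
    rw [this]
    exact (abs_sub _ _).trans (by linarith)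
  have h4 : K * (|s - t| * |φ x|) ≤ K * (|φ z - s * φ x| + |φ z - t * φ x|) := by gcongr
  have h5 : 2 * |φ x| ≤ K * |s - t| * |φ x| := by gcongr
  nlinarith

/-- Main theorem. -/
theorem fblOctahedral_of_octahedral (hE : IsL1Predual.{u, v} E) (hO : Octahedral E) :
    FBLOctahedral E := by
  classical
  intro n f hf ε hε
  rcases Nat.eq_zero_or_pos n with rfl | hn
  · obtain ⟨y, hy, -⟩ := hO 0 (fun i => i.elim0) (fun i => i.elim0) 1 one_pos
    refine ⟨delta y, (InSublattice.eval y).mem_FBL, ?_, fun i => i.elim0⟩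
    rw [fblNorm_delta, hy, ENNReal.ofReal_one]
  set η : ℝ := min ε 1 / 30 with hηdef
  have hη : 0 < η := by positivity
  have hη1 : η ≤ 1 / 30 := by
    have := min_le_right ε 1
    rw [hηdef]; linarith
  have hηε : 30 * η ≤ ε := by
    have := min_le_left ε 1
    rw [hηdef]; linarith
  have hffin : ∀ i, fblNorm (f i) < ∞ := fun i => (hf i).1.2.1
  have hg : ∀ i, ∃ g, InSublattice g ∧ fblNorm (f i - g) < ENNReal.ofReal η := fun i =>
    (hf i).1.2.2 (ENNReal.ofReal η) (by simpa using hη)
  choose f' hf'L hf'd using hg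
  have hfin' : ∀ i, fblNorm (f' i) < ∞ := fun i => (hf'L i).lt_top
  have hdfin : ∀ i, fblNorm (f i - f' i) < ∞ := fun i => (hf'd i).trans ENNReal.ofReal_lt_top
  have hd1 : ∀ i, (fblNorm (f i - f' i)).toReal < η := fun i =>
    (ENNReal.lt_ofReal_iff_toReal_lt (hdfin i).ne).1 (hf'd i)
  have hN1 : ∀ i, (fblNorm (f i)).toReal = 1 := fun i => by rw [(hf i).2]; rfl
  have hlow : ∀ i, ENNReal.ofReal (1 - η) < fblNorm (f' i) := by
    intro i
    have h1 := toReal_le_add_sub (hfin' i) (hdfin i)
    rw [hN1] at h1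
    rw [ENNReal.ofReal_lt_iff_lt_toReal (by linarith) (hfin' i).ne]
    linarith [hd1 i]
  have hup : ∀ i, fblNorm (f' i) ≤ ENNReal.ofReal (1 + η) := by
    intro i
    have h2 : fblNorm (f' i - f i) < ∞ := by rw [fblNorm_sub_comm]; exact hdfin i
    have h1 := toReal_le_add_sub (hffin i) h2
    rw [hN1, fblNorm_sub_comm] at h1
    rw [ENNReal.le_ofReal_iff_toReal_le (hfin' i).ne (by linarith)]
    linarith [hd1 i]
  -- the finite-dimensional subspace
  choose F hFfd hFloc using fun i => (hf'L i).local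
  let G : Submodule ℝ E := ⨆ i, F i
  have : ∀ i, FiniteDimensional ℝ (F i) := hFfd
  have hGfd : FiniteDimensional ℝ G := Submodule.finiteDimensional_iSup F
  have hFG : ∀ i, F i ≤ G := fun i => le_iSup F i
  obtain ⟨x, hx1, hx⟩ := hO.exists_independent G (δ := η / 2) (by positivity)
  obtain ⟨z, hz1, hz⟩ := hO.exists_independent (G ⊔ Submodule.span ℝ {x}) (δ := η / 2)
    (by positivity)
  have hxz : ∀ w ∈ G, ∀ α β : ℝ, (1 - η) * (‖w‖ + |α| + |β|) ≤ ‖w + α • x + β • z‖ := by
    intro w hw α β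
    have h1 := hx w hw α
    have h2 := hz (w + α • x) (Submodule.add_mem_sup hw
      (Submodule.smul_mem _ _ (Submodule.mem_span_singleton_self x))) β
    have h3 : 0 ≤ ‖w‖ + |α| := by positivity
    have h4 : 0 ≤ |β| := abs_nonneg β
    have h5 : (1 - η / 2) * ((1 - η / 2) * (‖w‖ + |α|) + |β|) ≤ ‖w + α • x + β • z‖ := by
      refine le_trans ?_ h2
      gcongr
      linarith
    nlinarith [mul_nonneg (sq_nonneg η) h3, mul_nonneg hη.le h4]
  -- parameters
  have hn' : (0 : ℝ) < n := Nat.cast_pos.2 hn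
  let t : Fin n → ℝ := fun i => (i : ℝ) / n
  let K : ℝ := 2 * n
  have hK : 0 ≤ K := by positivity
  have ht : ∀ i, |t i| ≤ 1 := by
    intro i
    have : (0 : ℝ) ≤ (i : ℝ) / n := by positivity
    rw [abs_of_nonneg this, div_le_one hn']
    exact_mod_cast i.2.le
  have hsep : ∀ i l : Fin n, i ≠ l → 2 ≤ K * |t i - t l| := by
    intro i l hil
    have h1 : (1 : ℝ) ≤ |(i : ℝ) - (l : ℝ)| := by
      have : (1 : ℤ) ≤ |((i : ℕ) : ℤ) - ((l : ℕ) : ℤ)| := by
        apply Int.one_le_abs
        intro h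
        apply hil
        apply Fin.ext
        omega
      exact_mod_cast this
    have h2 : t i - t l = ((i : ℝ) - (l : ℝ)) / n := by simp only [t]; ring
    rw [h2, abs_div, abs_of_pos hn']
    have : K * (|(i : ℝ) - (l : ℝ)| / n) = 2 * |(i : ℝ) - (l : ℝ)| := by
      simp only [K]; field_simp
    rw [this]; linarith
  choose J κ hJ hκ a c g M hg1 hM hMj hs1 hs2 hθ using fun i =>
    exists_data hE (hf'L i) hη (by linarith) (hlow i) (hup i)
  let h : Fin n → StrongDual ℝ E → ℝ := fun i => bump x z (t i) K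
  let Y : Fin n → StrongDual ℝ E → ℝ := fun i => clampTo (h i) (M i • f' i)
  let y : StrongDual ℝ E → ℝ := ∑ i, Y i
  have hyL : InSublattice y := InSublattice.sum _ _ fun i _ =>
    inSublattice_clampTo (inSublattice_bump _ _ _ _) ((hf'L i).smul _)
  have hY0 : ∀ i φ, h i φ = 0 → Y i φ = 0 := by
    intro i φ h0
    have := abs_clampTo_le (h := h i) (f := M i • f' i) (φ := φ) (by rw [h0])
    rw [h0] at this
    exact abs_eq_zero.1 (le_antisymm this (abs_nonneg _))
  have hysingle : ∀ φ i, 0 < h i φ → y φ = Y i φ := by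
    intro φ i hi
    simp only [y, Finset.sum_apply]
    refine Finset.sum_eq_single i ?_ (fun hb => absurd (Finset.mem_univ _) hb)
    intro l _ hl
    exact hY0 l φ (bump_disjoint x z hK (hsep i l (Ne.symm hl)) φ hi)
  have hyle : ∀ φ, |y φ| ≤ |delta x φ| := by
    intro φ
    by_cases hex : ∃ i, 0 < h i φ
    · obtain ⟨i, hi⟩ := hex
      rw [hysingle φ i hi]
      exact (abs_clampTo_le hi.le).trans (bump_le x z (t i) hK φ)
    · push Not at hex
      have : y φ = 0 := by
        simp only [y, Finset.sum_apply]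
        exact Finset.sum_eq_zero fun i _ =>
          hY0 i φ (le_antisymm (hex i) (bump_nonneg _ _ _ _ _))
      rw [this, abs_zero]
      exact abs_nonneg _
  have hyfin : fblNorm y < ∞ := hyL.lt_top
  have hy1 : (fblNorm y).toReal ≤ 1 := by
    have h1 : fblNorm y ≤ ENNReal.ofReal 1 := by
      refine (fblNorm_mono hyle).trans ?_
      rw [fblNorm_delta, hx1]
    have := ENNReal.toReal_mono ENNReal.ofReal_ne_top h1
    simpa using this
  -- the key estimate
  have hkey : ∀ i, 2 - 10 * η ≤ (fblNorm (f' i + y)).toReal := by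
    intro i
    obtain ⟨T, hTG, hTx, hTz, hTn⟩ := exists_transfer (a i) (c i) (hg1 i) (δ := η) (η := η)
      (by linarith) (hθ i) G x z hxz (ht i)
    have hloc : ∀ j, f' i (T j) = f' i (∑ k, c i j k • a i k) := fun j =>
      hFloc i _ _ fun w hw => hTG j w (hFG i hw)
    have hval : ∀ j, |(f' i + y) (T j)| =
        |f' i (∑ k, c i j k • a i k)| + |(∑ k, c i j k • a i k) (g i)| := by
      intro j
      have hhi : h i (T j) = |(∑ k, c i j k • a i k) (g i)| := by
        simp only [h]
        rw [bump_apply, hTx, hTz, sub_self, abs_zero, mul_zero, sub_zero]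
        exact max_eq_left (abs_nonneg _)
      set s : StrongDual ℝ E := ∑ k, c i j k • a i k with hs
      have hyT : y (T j) = Y i (T j) := by
        rcases (abs_nonneg (s (g i))).lt_or_eq with hpos | hzero
        · exact hysingle _ _ (by rw [hhi]; exact hpos)
        · have hT0 : delta x (T j) = 0 := by
            show T j x = 0
            rw [hTx]; exact abs_eq_zero.1 hzero.symm
          have h1 := hyle (T j)
          rw [hT0, abs_zero] at h1
          rw [abs_eq_zero.1 (le_antisymm h1 (abs_nonneg _)), hY0 i _ (by rw [hhi]; exact hzero.symm)]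
      rw [Pi.add_apply, hyT, hloc]
      have hYv : Y i (T j) = max (-|s (g i)|) (min (|s (g i)|) (M i * f' i s)) := by
        show clampTo (h i) (M i • f' i) (T j) = _
        rw [clampTo_apply, hhi, Pi.smul_apply, hloc, smul_eq_mul]
      rw [hYv]
      have hm := hMj i j
      rcases le_total 0 (f' i s) with hsn | hsn
      · have h1 : |s (g i)| ≤ M i * f' i s := by rwa [abs_of_nonneg hsn] at hm
        rw [min_eq_left h1, max_eq_right (by linarith [abs_nonneg (s (g i))]),
          abs_of_nonneg (add_nonneg hsn (abs_nonneg _)), abs_of_nonneg hsn]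
      · have h1 : M i * f' i s ≤ -|s (g i)| := by
          rw [abs_of_nonpos hsn] at hm
          linarith
        have h2 : M i * f' i s ≤ |s (g i)| := by linarith [abs_nonneg (s (g i))]
        rw [min_eq_right h2, max_eq_left h1, abs_of_nonpos (by linarith [abs_nonneg (s (g i))]),
          abs_of_nonpos hsn]
        ring
    have hsum : 2 - 6 * η ≤ ∑ j, |(f' i + y) (T j)| := by
      rw [Finset.sum_congr rfl fun j _ => hval j, Finset.sum_add_distrib]
      linarith [hs1 i, hs2 i]
    have hpos : (0 : ℝ) < (1 + η) / (1 - η) := div_pos (by linarith) (by linarith)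
    have hL : InSublattice (f' i + y) := (hf'L i).add hyL
    have h1 := le_fblNorm_of_bound (f := f' i + y) hL.posHom hpos T hTn
    have h2 : ((1 + η) / (1 - η))⁻¹ * ∑ j, |(f' i + y) (T j)| ≤ (fblNorm (f' i + y)).toReal :=
      (ENNReal.ofReal_le_iff_le_toReal hL.lt_top.ne).1 h1
    have h3 : 1 - 2 * η ≤ ((1 + η) / (1 - η))⁻¹ := by
      rw [inv_div, le_div_iff₀ (by linarith)]
      nlinarith
    calc 2 - 10 * η ≤ (1 - 2 * η) * (2 - 6 * η) := by nlinarith
      _ ≤ ((1 + η) / (1 - η))⁻¹ * ∑ j, |(f' i + y) (T j)| := by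
        apply mul_le_mul h3 hsum (by linarith) (by positivity)
      _ ≤ _ := h2
  have hkey2 : ∀ i, 2 - 11 * η < (fblNorm (f i + y)).toReal := by
    intro i
    have h1 : fblNorm (f i + y) < ∞ :=
      (fblNorm_add_le _ _).trans_lt (ENNReal.add_lt_top.2 ⟨hffin i, hyfin⟩)
    have e1 : (f' i + y) - (f i + y) = f' i - f i := by abel
    have h2 : fblNorm (f' i - f i) < ∞ := by rw [fblNorm_sub_comm]; exact hdfin i
    have h3 := toReal_le_add_sub (f := f i + y) (g := f' i + y) h1 (by rw [e1]; exact h2)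
    rw [e1, fblNorm_sub_comm] at h3
    linarith [hkey i, hd1 i]
  set r : ℝ := (fblNorm y).toReal with hr
  have hrlow : 1 - 11 * η < r := by
    have h1 := toReal_add_le (hffin ⟨0, hn⟩) hyfin
    have h2 := hkey2 ⟨0, hn⟩
    rw [hN1] at h1
    linarith
  have hr0 : 0 < r := by linarith
  refine ⟨r⁻¹ • y, (hyL.smul _).mem_FBL, ?_, fun i => ?_⟩
  · rw [fblNorm_smul, abs_of_pos (inv_pos.2 hr0)]
    have : fblNorm y = ENNReal.ofReal r := (ENNReal.ofReal_toReal hyfin.ne).symm
    rw [this, ← ENNReal.ofReal_mul (by positivity), inv_mul_cancel₀ hr0.ne', ENNReal.ofReal_one]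
  · have hL : fblNorm (f i + r⁻¹ • y) < ∞ :=
      (fblNorm_add_le _ _).trans_lt (ENNReal.add_lt_top.2 ⟨hffin i, (hyL.smul _).lt_top⟩)
    have e1 : (f i + y) - (f i + r⁻¹ • y) = (1 - r⁻¹) • y := by
      rw [sub_smul, one_smul]; abel
    have h1 : (fblNorm ((1 - r⁻¹) • y)).toReal = 1 - r := by
      rw [fblNorm_smul, ENNReal.toReal_mul, ENNReal.toReal_ofReal (abs_nonneg _), ← hr]
      have : 1 - r⁻¹ ≤ 0 := by
        have := one_le_inv_iff₀.2 ⟨hr0, hy1⟩
        linarith
      rw [abs_of_nonpos this]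
      field_simp
      ring
    have h2 := toReal_le_add_sub (f := f i + r⁻¹ • y) (g := f i + y) hL (by
      rw [e1]; exact (hyL.smul _).lt_top)
    rw [e1, h1] at h2
    have h3 : 2 - 22 * η < (fblNorm (f i + r⁻¹ • y)).toReal := by linarith [hkey2 i]
    rcases le_total 0 (2 - ε) with h4 | h4
    · rw [ENNReal.ofReal_lt_iff_lt_toReal h4 hL.ne]
      linarith
    · rw [ENNReal.ofReal_of_nonpos h4]
      have h5 : 0 < (fblNorm (f i + r⁻¹ • y)).toReal := by linarith
      exact (ENNReal.toReal_pos_iff.1 h5).1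

end Pool.Agent.Helper91.FreeLat
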