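import Pool.Agent.Helper91.FBL.Geometry

/-! # Simple functions in the dual of an L₁-predual -/

set_option autoImplicit false

namespace Pool.Agent.Helper91.FreeLat

open scoped ENNReal
open MeasureTheory

universe u v

variable {E : Type u} [NormedAddCommGroup E] [NormedSpace ℝ E]

lemma coeFn_sum_L1 {Ω : Type v} [MeasurableSpace Ω] (μ : Measure Ω) {κ : Type*} (s : Finset κ)
    (f : κ → Lp ℝ 1 μ) : (↑(∑ k ∈ s, f k) : Ω → ℝ) =ᵐ[μ] fun ω => ∑ k ∈ s, (f k : Ω → ℝ) ω := by
  classical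
  induction s using Finset.induction_on with
  | empty =>
    filter_upwards [Lp.coeFn_zero ℝ 1 μ] with ω w
    simpa using w
  | insert a s ha ih =>
    rw [Finset.sum_insert ha]
    filter_upwards [Lp.coeFn_add (f a) (∑ k ∈ s, f k), ih] with ω w1 w2
    rw [w1, Pi.add_apply, w2, Finset.sum_insert ha]

/-- Finitely many functions in `L₁(μ)` are close to linear combinations of pairwise disjoint
indicator functions. -/
lemma exists_simple_L1 {Ω : Type v} [MeasurableSpace Ω] (μ : Measure Ω) {n : ℕ}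
    (f : Fin n → Lp ℝ 1 μ) {τ : ℝ} (hτ : 0 < τ) :
    ∃ (κ : Type) (_ : Fintype κ) (a : κ → Lp ℝ 1 μ) (c : Fin n → κ → ℝ),
      (∀ j, ‖f j - ∑ k, c j k • a k‖ ≤ τ) ∧
      ∀ t : κ → ℝ, ‖∑ k, t k • a k‖ = ∑ k, |t k| * ‖a k‖ := by
  classical
  let h : Ω → (Fin n → ℝ) := fun ω => ∑ j, (f j : Ω → ℝ) ω • (Pi.single j (1 : ℝ) : Fin n → ℝ)
  have hint : Integrable h μ :=
    integrable_finsetSum _ fun j _ => (L1.integrable_coeFn (f j)).smul_const _
  have hcoord : ∀ ω j, h ω j = (f j : Ω → ℝ) ω := by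
    intro ω j
    simp [h, Pi.single_apply]
  have hmem : MemLp h 1 μ := memLp_one_iff_integrable.2 hint
  obtain ⟨g, hg, hgm⟩ := hmem.exists_simpleFunc_eLpNorm_sub_lt ENNReal.one_ne_top
    (ε := ENNReal.ofReal τ) (by simpa using hτ)
  obtain ⟨s, hs⟩ : ∃ s : Finset (Fin n → ℝ), s = g.range.filter (fun k => k ≠ 0) := ⟨_, rfl⟩
  have hsmem : ∀ k, k ∈ s ↔ k ∈ g.range ∧ k ≠ 0 := fun k => by rw [hs, Finset.mem_filter]
  have hfin : ∀ k : s, μ (g ⁻¹' {k.1}) ≠ ∞ := by
    intro k
    have hk := ((hsmem _).1 k.2).2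
    exact (SimpleFunc.measure_preimage_lt_top_of_memLp one_ne_zero ENNReal.one_ne_top g hgm
      k.1 hk).ne
  let a : s → Lp ℝ 1 μ := fun k =>
    indicatorConstLp 1 (g.measurableSet_preimage {k.1}) (hfin k) (1 : ℝ)
  have ha : ∀ k, (a k : Ω → ℝ) =ᵐ[μ] (g ⁻¹' {k.1}).indicator (fun _ => (1 : ℝ)) :=
    fun k => indicatorConstLp_coeFn
  have hsum : ∀ t : s → ℝ, (↑(∑ k, t k • a k) : Ω → ℝ) =ᵐ[μ]
      fun ω => ∑ k, t k * (g ⁻¹' {k.1}).indicator (fun _ => (1 : ℝ)) ω := by
    intro t
    have h1 := coeFn_sum_L1 μ Finset.univ (fun k => t k • a k)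
    have h2 : ∀ᵐ ω ∂μ, ∀ k, (↑(t k • a k) : Ω → ℝ) ω = t k * (a k : Ω → ℝ) ω := by
      rw [ae_all_iff]
      intro k
      filter_upwards [Lp.coeFn_smul (t k) (a k)] with ω hω
      simpa using hω
    have h3 : ∀ᵐ ω ∂μ, ∀ k, (a k : Ω → ℝ) ω = (g ⁻¹' {k.1}).indicator (fun _ => (1 : ℝ)) ω := by
      rw [ae_all_iff]
      exact fun k => ha k
    filter_upwards [h1, h2, h3] with ω w1 w2 w3
    rw [w1]
    exact Finset.sum_congr rfl fun k _ => by rw [w2, w3]
  refine ⟨s, inferInstance, a, fun j k => k.1 j, fun j => ?_, fun t => ?_⟩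
  · -- approximation
    have hpt : ∀ ω, ∑ k : s, k.1 j * (g ⁻¹' {k.1}).indicator (fun _ => (1 : ℝ)) ω = g ω j := by
      intro ω
      by_cases h0 : g ω = 0
      · rw [h0, Pi.zero_apply]
        refine Finset.sum_eq_zero fun k _ => ?_
        have : ω ∉ g ⁻¹' {k.1} := by
          intro hω
          have : g ω = k.1 := hω
          exact ((hsmem _).1 k.2).2 (by rw [← this, h0])
        rw [Set.indicator_of_notMem this, mul_zero]
      · have hmem' : g ω ∈ s := (hsmem _).2 ⟨g.mem_range_self ω, h0⟩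
        rw [Finset.sum_eq_single (⟨g ω, hmem'⟩ : s)]
        · simp
        · intro b _ hb
          have : ω ∉ g ⁻¹' {b.1} := by
            intro hω
            apply hb
            apply Subtype.ext
            have : g ω = b.1 := hω
            exact this.symm
          rw [Set.indicator_of_notMem this, mul_zero]
        · intro hb
          exact absurd (Finset.mem_univ _) hb
    rw [Lp.norm_def]
    have hae : (↑(f j - ∑ k : s, k.1 j • a k) : Ω → ℝ) =ᵐ[μ] fun ω => h ω j - g ω j := by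
      filter_upwards [Lp.coeFn_sub (f j) (∑ k : s, k.1 j • a k), hsum (fun k => k.1 j)]
        with ω w1 w2
      rw [w1, Pi.sub_apply, w2, hpt, hcoord]
    rw [eLpNorm_congr_ae hae]
    have hle : eLpNorm (fun ω => h ω j - g ω j) 1 μ ≤ eLpNorm (h - ⇑g) 1 μ := by
      refine eLpNorm_mono fun ω => ?_
      have := norm_le_pi_norm (h ω - g ω) j
      simpa using this
    exact ENNReal.toReal_le_of_le_ofReal hτ.le (hle.trans hg.le)
  · rw [L1.norm_eq_integral_norm]
    have hae : (fun ω => ‖(↑(∑ k, t k • a k) : Ω → ℝ) ω‖) =ᵐ[μ]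
        fun ω => ∑ k, |t k| * (g ⁻¹' {k.1}).indicator (fun _ => (1 : ℝ)) ω := by
      filter_upwards [hsum t] with ω w
      rw [w, Real.norm_eq_abs]
      by_cases hω : ∃ k : s, ω ∈ g ⁻¹' {k.1}
      · obtain ⟨k₀, hk₀⟩ := hω
        have hz : ∀ k : s, k ≠ k₀ → ω ∉ g ⁻¹' {k.1} := by
          intro k hk hω
          apply hk
          apply Subtype.ext
          have h1 : g ω = k.1 := hω
          have h2 : g ω = k₀.1 := hk₀
          rw [← h1, h2]
        rw [Finset.sum_eq_single k₀, Finset.sum_eq_single k₀]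
        · rw [Set.indicator_of_mem hk₀, mul_one, mul_one]
        · intro b _ hb
          rw [Set.indicator_of_notMem (hz b hb), mul_zero]
        · intro hb; exact absurd (Finset.mem_univ _) hb
        · intro b _ hb
          rw [Set.indicator_of_notMem (hz b hb), mul_zero]
        · intro hb; exact absurd (Finset.mem_univ _) hb
      · push Not at hω
        rw [Finset.sum_eq_zero, Finset.sum_eq_zero, abs_zero]
        · intro k _
          rw [Set.indicator_of_notMem (hω k), mul_zero]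
        · intro k _
          rw [Set.indicator_of_notMem (hω k), mul_zero]
    rw [integral_congr_ae hae, integral_finsetSum]
    · refine Finset.sum_congr rfl fun k _ => ?_
      rw [integral_const_mul]
      congr 1
      rw [L1.norm_eq_integral_norm]
      refine integral_congr_ae ?_
      filter_upwards [ha k] with ω w
      rw [w, Real.norm_eq_abs, abs_of_nonneg]
      exact Set.indicator_nonneg (fun _ _ => zero_le_one) ω
    · intro k _
      refine Integrable.const_mul ?_ _
      exact (L1.integrable_coeFn (a k)).congr (ha k)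

/-- The same in the dual of an `L₁`-predual. -/
lemma IsL1Predual.exists_simple (hE : IsL1Predual.{u, v} E) {n : ℕ} (φ : Fin n → StrongDual ℝ E)
    {τ : ℝ} (hτ : 0 < τ) :
    ∃ (κ : Type) (_ : Fintype κ) (a : κ → StrongDual ℝ E) (c : Fin n → κ → ℝ),
      (∀ j, ‖φ j - ∑ k, c j k • a k‖ ≤ τ) ∧
      ∀ t : κ → ℝ, ‖∑ k, t k • a k‖ = ∑ k, |t k| * ‖a k‖ := by
  obtain ⟨Ω, hΩ, μ, ⟨e⟩⟩ := hE
  obtain ⟨κ, hκ, a, c, h1, h2⟩ := exists_simple_L1 μ (fun j => e (φ j)) hτ
  refine ⟨κ, hκ, fun k => e.symm (a k), c, fun j => ?_, fun t => ?_⟩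
  · have := h1 j
    rw [← e.symm.norm_map] at this
    simpa [map_sub, map_sum] using this
  · have := h2 t
    rw [← e.symm.norm_map] at this
    simpa [map_sum] using this

end Pool.Agent.Helper91.FreeLat
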