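import Pool.Agent.Helper91.FBL.Simple

/-! # Norming tuples and their transfer -/

set_option autoImplicit false

namespace Pool.Agent.Helper91.FreeLat

open scoped ENNReal

universe u v

variable {E : Type u} [NormedAddCommGroup E] [NormedSpace ℝ E]

/-- Norming data of a lattice expression of norm close to one. -/
lemma exists_data (hE : IsL1Predual.{u, v} E) {f : StrongDual ℝ E → ℝ} (hf : InSublattice f)
    {η : ℝ} (hη : 0 < η) (hη1 : η ≤ 1 / 10)
    (h1 : ENNReal.ofReal (1 - η) < fblNorm f) (h2 : fblNorm f ≤ ENNReal.ofReal (1 + η)) :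
    ∃ (J κ : Type) (_ : Fintype J) (_ : Fintype κ) (a : κ → StrongDual ℝ E) (c : J → κ → ℝ)
      (g : E) (M : ℝ), ‖g‖ ≤ 1 ∧ 0 ≤ M ∧
      (∀ j, |(∑ k, c j k • a k) g| ≤ M * |f (∑ k, c j k • a k)|) ∧
      1 - 2 * η ≤ ∑ j, |f (∑ k, c j k • a k)| ∧
      1 - 4 * η < ∑ j, |(∑ k, c j k • a k) g| ∧
      ∀ θ : J → ℝ, (∀ j, |θ j| ≤ 1) → ∑ k, |∑ j, θ j * c j k| * ‖a k‖ ≤ 1 + η := by
  classical
  have h1' := h1
  unfold fblNorm at h1'
  simp only [lt_iSup_iff] at h1'
  obtain ⟨n, φ, hφ, hlt⟩ := h1'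
  have hlt' : 1 - η < ∑ j, |f (φ j)| := (ENNReal.ofReal_lt_ofReal_iff_of_nonneg (by linarith)).1 hlt
  obtain ⟨C, hC, hL⟩ := hf.lipschitz
  set τ : ℝ := η / ((n + 1) * (C + 1)) with hτdef
  have hden : (0 : ℝ) < (n + 1) * (C + 1) := by positivity
  have hτ : 0 < τ := by positivity
  have hnτ : n * τ ≤ η := by
    rw [hτdef, mul_div_assoc', div_le_iff₀ hden]
    nlinarith [mul_nonneg (Nat.cast_nonneg (α := ℝ) n) hC]
  have hnCτ : n * (C * τ) ≤ η := by
    rw [hτdef, ← mul_assoc, mul_div_assoc', div_le_iff₀ hden]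
    nlinarith [mul_nonneg (Nat.cast_nonneg (α := ℝ) n) hC]
  obtain ⟨κ, hκ, a, c, hc, ha⟩ := hE.exists_simple φ hτ
  set s : Fin n → StrongDual ℝ E := fun j => ∑ k, c j k • a k with hs
  have hsum1 : 1 - 2 * η ≤ ∑ j, |f (s j)| := by
    have h3 : ∀ j, |f (φ j)| - C * τ ≤ |f (s j)| := by
      intro j
      have h4 := hL (φ j) (s j)
      have h5 : C * ‖φ j - s j‖ ≤ C * τ := by gcongr; exact hc j
      have h6 := abs_sub_abs_le_abs_sub (f (φ j)) (f (s j))
      linarith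
    have h7 : ∑ j, (|f (φ j)| - C * τ) ≤ ∑ j, |f (s j)| := Finset.sum_le_sum fun j _ => h3 j
    rw [Finset.sum_sub_distrib, Finset.sum_const, Finset.card_univ, Fintype.card_fin,
      nsmul_eq_mul] at h7
    linarith
  have hadm : ∀ e : E, ‖e‖ ≤ 1 → ∑ j, |s j e| ≤ 1 + η := by
    intro e he
    have h3 : ∀ j, |s j e| ≤ |φ j e| + τ := by
      intro j
      have h4 : |(φ j - s j) e| ≤ τ := by
        calc |(φ j - s j) e| ≤ ‖φ j - s j‖ * ‖e‖ := (φ j - s j).le_opNorm e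
          _ ≤ τ * 1 := by gcongr; exact hc j
          _ = τ := mul_one τ
      have h5 : s j e = φ j e - (φ j - s j) e := by simp
      rw [h5]
      exact (abs_sub _ _).trans (by linarith)
    calc ∑ j, |s j e| ≤ ∑ j, (|φ j e| + τ) := Finset.sum_le_sum fun j _ => h3 j
      _ = ∑ j, |φ j e| + n * τ := by
        rw [Finset.sum_add_distrib, Finset.sum_const, Finset.card_univ, Fintype.card_fin,
          nsmul_eq_mul]
      _ ≤ 1 + η := add_le_add (hφ e he) hnτ
  obtain ⟨J, hJ⟩ : ∃ J : Finset (Fin n), J = Finset.univ.filter (fun j => f (s j) ≠ 0) := ⟨_, rfl⟩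
  have hJmem : ∀ j, j ∈ J → f (s j) ≠ 0 := fun j hj => by
    rw [hJ, Finset.mem_filter] at hj
    exact hj.2
  have hJne : ∀ j : J, f (s j) ≠ 0 := fun j => hJmem j j.2
  have hsum2 : 1 - 2 * η ≤ ∑ j : J, |f (s j)| := by
    rw [Finset.sum_coe_sort J (fun j => |f (s j)|), hJ, Finset.sum_filter_of_ne]
    · exact hsum1
    · intro j _ hj h0
      rw [h0, abs_zero] at hj
      exact hj rfl
  have hadm2 : ∀ e : E, ‖e‖ ≤ 1 → ∑ j : J, |s j e| ≤ 1 + η := by
    intro e he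
    refine le_trans ?_ (hadm e he)
    rw [Finset.sum_coe_sort J (fun j => |s j e|)]
    exact Finset.sum_le_sum_of_subset_of_nonneg (Finset.subset_univ _)
      fun _ _ _ => abs_nonneg _
  obtain ⟨g, hg1, hg2⟩ : ∃ g : E, ‖g‖ ≤ 1 ∧ 1 - 4 * η < ∑ j : J, |s j g| := by
    by_contra hcon
    push Not at hcon
    have := sum_le_of_bound (ι := J) (C := 1 + η) (by linarith) hf.posHom h2 (s := 1 - 4 * η)
      (by linarith) (fun j => s j) hcon
    nlinarith
  refine ⟨J, κ, inferInstance, hκ, a, fun j => c j, g, ∑ j : J, |s j g| / |f (s j)|, hg1,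
    Finset.sum_nonneg fun j _ => by positivity, ?_, hsum2, hg2, ?_⟩
  · intro j
    have hpos : 0 < |f (s j)| := abs_pos.2 (hJne j)
    have h3 : |s j g| / |f (s j)| ≤ ∑ j : J, |s j g| / |f (s j)| :=
      Finset.single_le_sum (f := fun j : J => |s j g| / |f (s j)|)
        (fun i _ => by positivity) (Finset.mem_univ j)
    calc |s j g| = |s j g| / |f (s j)| * |f (s j)| := by rw [div_mul_cancel₀ _ hpos.ne']
      _ ≤ _ := by gcongr
  · intro θ hθ
    rw [← ha]
    have e1 : ∑ k, (∑ j : J, θ j * c j k) • a k = ∑ j : J, θ j • s j := by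
      simp only [hs, Finset.smul_sum, Finset.sum_smul, smul_smul]
      rw [Finset.sum_comm]
    rw [e1]
    refine ContinuousLinearMap.opNorm_le_of_unit_norm (by linarith) ?_
    intro e he
    refine le_trans ?_ (hadm2 e he.le)
    have e2 : (∑ j : J, θ j • s j) e = ∑ j : J, θ j * s j e := by
      simp
    rw [e2, Real.norm_eq_abs]
    refine (Finset.abs_sum_le_sum_abs _ _).trans (Finset.sum_le_sum fun j _ => ?_)
    rw [abs_mul]
    calc |θ j| * |s j e| ≤ 1 * |s j e| := by gcongr; exact hθ j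
      _ = |s j e| := one_mul _

/-- Transfer of a norming tuple. -/
lemma exists_transfer {J κ : Type} [Fintype J] [Fintype κ] (a : κ → StrongDual ℝ E)
    (c : J → κ → ℝ) {g : E} (hg : ‖g‖ ≤ 1) {η δ : ℝ} (hδ1 : δ < 1)
    (hθ : ∀ θ : J → ℝ, (∀ j, |θ j| ≤ 1) → ∑ k, |∑ j, θ j * c j k| * ‖a k‖ ≤ 1 + η)
    (F : Submodule ℝ E) (x z : E)
    (hxz : ∀ u ∈ F, ∀ α β : ℝ, (1 - δ) * (‖u‖ + |α| + |β|) ≤ ‖u + α • x + β • z‖)
    {t : ℝ} (ht : |t| ≤ 1) :
    ∃ T : J → StrongDual ℝ E, (∀ j, ∀ u ∈ F, T j u = (∑ k, c j k • a k) u) ∧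
      (∀ j, T j x = (∑ k, c j k • a k) g) ∧ (∀ j, T j z = t * (∑ k, c j k • a k) g) ∧
      ∀ e : E, ‖e‖ ≤ 1 → ∑ j, |T j e| ≤ (1 + η) / (1 - δ) := by
  classical
  have hδ0 : 0 < 1 - δ := by linarith
  let L : F × ℝ × ℝ →ₗ[ℝ] E :=
    { toFun := fun v => (v.1 : E) + v.2.1 • x + v.2.2 • z
      map_add' := by
        intro v w
        simp only [Prod.fst_add, Prod.snd_add, Submodule.coe_add, add_smul]
        abel
      map_smul' := by
        intro r v
        simp only [Prod.smul_fst, Prod.smul_snd, Submodule.coe_smul, smul_eq_mul, mul_smul,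
          smul_add, RingHom.id_apply] }
  have hψ : ∀ k, ∃ ψ : StrongDual ℝ E, ‖ψ‖ ≤ ‖a k‖ / (1 - δ) ∧ (∀ u ∈ F, ψ u = a k u) ∧
      ψ x = a k g ∧ ψ z = t * a k g := by
    intro k
    let R : F × ℝ × ℝ →ₗ[ℝ] ℝ :=
      { toFun := fun v => a k v.1 + (v.2.1 + t * v.2.2) * a k g
        map_add' := by
          intro v w
          simp only [Prod.fst_add, Prod.snd_add, Submodule.coe_add, map_add]
          ring
        map_smul' := by
          intro r v
          simp only [Prod.smul_fst, Prod.smul_snd, Submodule.coe_smul, smul_eq_mul, map_smul,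
            RingHom.id_apply]
          ring }
    obtain ⟨ψ, hψ1, hψ2⟩ := exists_functional L R (M := ‖a k‖ / (1 - δ)) (by positivity) (by
      intro v
      have h1 := hxz v.1 v.1.2 v.2.1 v.2.2
      have h2 : |a k v.1 + (v.2.1 + t * v.2.2) * a k g| ≤
          ‖a k‖ * (‖(v.1 : E)‖ + |v.2.1| + |v.2.2|) := by
        have i1 : |a k v.1| ≤ ‖a k‖ * ‖(v.1 : E)‖ := (a k).le_opNorm _
        have i2 : |a k g| ≤ ‖a k‖ := by
          calc |a k g| ≤ ‖a k‖ * ‖g‖ := (a k).le_opNorm _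
            _ ≤ ‖a k‖ * 1 := by gcongr
            _ = ‖a k‖ := mul_one _
        have i3 : |v.2.1 + t * v.2.2| ≤ |v.2.1| + |v.2.2| := by
          refine (abs_add_le _ _).trans ?_
          rw [abs_mul]
          have : |t| * |v.2.2| ≤ 1 * |v.2.2| := by gcongr
          linarith
        calc |a k v.1 + (v.2.1 + t * v.2.2) * a k g|
            ≤ |a k v.1| + |v.2.1 + t * v.2.2| * |a k g| := by
              rw [← abs_mul]; exact abs_add_le _ _
          _ ≤ ‖a k‖ * ‖(v.1 : E)‖ + (|v.2.1| + |v.2.2|) * ‖a k‖ := by gcongr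
          _ = ‖a k‖ * (‖(v.1 : E)‖ + |v.2.1| + |v.2.2|) := by ring
      show |a k v.1 + (v.2.1 + t * v.2.2) * a k g| ≤
        ‖a k‖ / (1 - δ) * ‖(v.1 : E) + v.2.1 • x + v.2.2 • z‖
      rw [div_mul_eq_mul_div, le_div_iff₀ hδ0]
      calc |a k v.1 + (v.2.1 + t * v.2.2) * a k g| * (1 - δ)
          ≤ ‖a k‖ * (‖(v.1 : E)‖ + |v.2.1| + |v.2.2|) * (1 - δ) := by gcongr
        _ = ‖a k‖ * ((1 - δ) * (‖(v.1 : E)‖ + |v.2.1| + |v.2.2|)) := by ring
        _ ≤ _ := by gcongr)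
    refine ⟨ψ, hψ1, fun u hu => ?_, ?_, ?_⟩
    · have := hψ2 (⟨u, hu⟩, 0, 0)
      simpa [L, R] using this
    · have := hψ2 (0, 1, 0)
      simpa [L, R] using this
    · have := hψ2 (0, 0, 1)
      simpa [L, R] using this
  choose ψ hψn hψF hψx hψz using hψ
  refine ⟨fun j => ∑ k, c j k • ψ k, fun j u hu => ?_, fun j => ?_, fun j => ?_, fun e he => ?_⟩
  · simp only [_root_.sum_apply, _root_.smul_apply]
    exact Finset.sum_congr rfl fun k _ => by rw [hψF k u hu]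
  · simp only [_root_.sum_apply, _root_.smul_apply]
    exact Finset.sum_congr rfl fun k _ => by rw [hψx k]
  · simp only [_root_.sum_apply, _root_.smul_apply, smul_eq_mul,
      Finset.mul_sum]
    exact Finset.sum_congr rfl fun k _ => by rw [hψz k]; ring
  · set T : J → StrongDual ℝ E := fun j => ∑ k, c j k • ψ k with hT
    let θ : J → ℝ := fun j => if 0 ≤ T j e then 1 else -1
    have hθ1 : ∀ j, |θ j| ≤ 1 := by
      intro j
      by_cases h : 0 ≤ T j e <;> simp [θ, h]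
    have hθ2 : ∀ j, |T j e| = θ j * T j e := by
      intro j
      by_cases h : 0 ≤ T j e
      · simp [θ, h, abs_of_nonneg h]
      · simp [θ, h, abs_of_neg (lt_of_not_ge h)]
    have e1 : ∑ j, |T j e| = ∑ k, (∑ j, θ j * c j k) * ψ k e := by
      calc ∑ j, |T j e| = ∑ j, θ j * T j e := Finset.sum_congr rfl fun j _ => hθ2 j
        _ = ∑ j, ∑ k, θ j * (c j k * ψ k e) := by
          refine Finset.sum_congr rfl fun j _ => ?_
          simp only [hT, _root_.sum_apply, _root_.smul_apply,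
            smul_eq_mul, Finset.mul_sum]
        _ = ∑ k, ∑ j, θ j * (c j k * ψ k e) := Finset.sum_comm
        _ = ∑ k, (∑ j, θ j * c j k) * ψ k e := by
          refine Finset.sum_congr rfl fun k _ => ?_
          rw [Finset.sum_mul]
          exact Finset.sum_congr rfl fun j _ => by ring
    rw [e1]
    have e2 : ∀ k, (∑ j, θ j * c j k) * ψ k e ≤ |∑ j, θ j * c j k| * ‖a k‖ / (1 - δ) := by
      intro k
      calc (∑ j, θ j * c j k) * ψ k e ≤ |(∑ j, θ j * c j k) * ψ k e| := le_abs_self _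
        _ = |∑ j, θ j * c j k| * |ψ k e| := abs_mul _ _
        _ ≤ |∑ j, θ j * c j k| * (‖ψ k‖ * ‖e‖) := by gcongr; exact (ψ k).le_opNorm e
        _ ≤ |∑ j, θ j * c j k| * (‖a k‖ / (1 - δ) * 1) := by gcongr; exact hψn k
        _ = |∑ j, θ j * c j k| * ‖a k‖ / (1 - δ) := by ring
    calc ∑ k, (∑ j, θ j * c j k) * ψ k e ≤ ∑ k, |∑ j, θ j * c j k| * ‖a k‖ / (1 - δ) :=
          Finset.sum_le_sum fun k _ => e2 k
      _ = (∑ k, |∑ j, θ j * c j k| * ‖a k‖) / (1 - δ) := by rw [Finset.sum_div]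
      _ ≤ (1 + η) / (1 - δ) := by gcongr; exact hθ θ hθ1

end Pool.Agent.Helper91.FreeLat
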